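import Pool.Agent.R563.MV.Final

set_option autoImplicit false

/-! # Solving a random Gaussian linear system to inverse polynomial accuracy needs linearly many
matrix-vector queries -/

noncomputable section

namespace Pool.Agent.Results.MP_f4f106_lc.LinearQueryLowerBound

open MeasureTheory ProbabilityTheory Matrix
open scoped ENNReal

/-- The answers to the queries made so far: position `i` holds the pair `(A v, Aᵀ v)` where `v` is
the `i`-th query; positions of queries not yet made hold `0`. -/
abbrev Answers (n : ℕ) : Type := ℕ → (Fin n → ℝ) × (Fin n → ℝ)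

/-- A randomised adaptive algorithm in the matrix-vector product model. Its randomness is a sample
`ω` from the probability space `(Ω, μ)`. On the right-hand side `b` it makes `q` queries; the
`i`-th one is `query b i ω` applied to the answers to the earlier ones; its output is `output b ω`
applied to all the answers. -/
structure Algo (n : ℕ) where
  /-- the sample space of the randomness of the algorithm -/
  Ω : Type
  /-- its measurable sets -/
  ms : MeasurableSpace Ω
  /-- its probability measure -/
  μ : Measure Ω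
  /-- the total mass is one -/
  prob : IsProbabilityMeasure μ
  /-- the number of queries -/
  q : ℕ
  /-- the queries -/
  query : (Fin n → ℝ) → ℕ → Ω → Answers n → Fin n → ℝ
  /-- the output -/
  output : (Fin n → ℝ) → Ω → Answers n → Fin n → ℝ
  /-- the queries are measurable functions of the randomness and the earlier answers -/
  query_meas : ∀ b i, Measurable fun p : Ω × Answers n => query b i p.1 p.2
  /-- the output is a measurable function of the randomness and the answers -/
  output_meas : ∀ b, Measurable fun p : Ω × Answers n => output b p.1 p.2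

attribute [instance] Algo.ms Algo.prob

variable {n : ℕ}

/-- the answers to the first `i` queries, for the matrix `A` and the randomness `ω` -/
def Algo.answers (S : Algo n) (b : Fin n → ℝ) (ω : S.Ω) (A : Matrix (Fin n) (Fin n) ℝ) :
    ℕ → Answers n
  | 0 => fun _ => 0
  | i + 1 => Function.update (S.answers b ω A i) i
      (A *ᵥ S.query b i ω (S.answers b ω A i), Aᵀ *ᵥ S.query b i ω (S.answers b ω A i))

/-- the final output, after `q` queries -/
def Algo.finalOutput (S : Algo n) (b : Fin n → ℝ) (ω : S.Ω) (A : Matrix (Fin n) (Fin n) ℝ) :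
    Fin n → ℝ := S.output b ω (S.answers b ω A S.q)

/-- the Euclidean norm -/
def nrm (x : Fin n → ℝ) : ℝ := Real.sqrt (∑ i, x i ^ 2)

/-- the law of `n * n` independent standard Gaussian entries -/
def gaussianEntries (n : ℕ) : Measure (Fin n × Fin n → ℝ) :=
  Measure.pi fun _ : Fin n × Fin n => gaussianReal 0 1

/-- The probability, over the matrix `A` with independent standard Gaussian entries `g (i, j)` and
the independent randomness `ω` of the algorithm, that the output `x` satisfies
`‖A x - b‖ ≤ ε ‖b‖`. -/
def Algo.success (S : Algo n) (b : Fin n → ℝ) (ε : ℝ) : ℝ≥0∞ :=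
  (S.μ.prod (gaussianEntries n)) {p | nrm (Matrix.of (fun i j => p.2 (i, j))
    *ᵥ S.finalOutput b p.1 (Matrix.of fun i j => p.2 (i, j)) - b) ≤ ε * nrm b}

/-! ### Proof -/

open Pool.Agent.R563.MV

theorem answers_eq (S : Algo n) (b : Fin n → ℝ) (ω : S.Ω) (A : Matrix (Fin n) (Fin n) ℝ) (i : ℕ) :
    S.answers b ω A i = tr (fun i => S.query b i ω) A i := by
  induction i with
  | zero => rfl
  | succ i ih =>
    simp only [Algo.answers, tr]
    rw [ih]

theorem gM_eq (n : ℕ) : gM n = (gaussianEntries n).map
    (fun g => (Matrix.of fun i j => g (i, j) : Mx n)) := by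
  unfold gM gaussianEntries
  rw [← map_pi_eq_stdGaussian, Measure.map_map measurable_mt (by fun_prop)]
  rfl

theorem measurable_of : Measurable fun g : Fin n × Fin n → ℝ =>
    (Matrix.of fun i j => g (i, j) : Mx n) := by
  apply measurable_mx_of
  intro i j
  exact measurable_pi_apply (i, j)

theorem measurable_answers (S : Algo n) (b : Fin n → ℝ) (i : ℕ) :
    Measurable fun p : S.Ω × Mx n => S.answers b p.1 p.2 i := by
  induction i with
  | zero => exact measurable_const
  | succ i ih =>
    have hv : Measurable fun p : S.Ω × Mx n => S.query b i p.1 (S.answers b p.1 p.2 i) :=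
      (S.query_meas b i).comp (measurable_fst.prodMk ih)
    have h1 : Measurable fun p : S.Ω × Mx n => p.2 *ᵥ S.query b i p.1 (S.answers b p.1 p.2 i) := by
      have hc : Continuous fun p : Mx n × (Fin n → ℝ) => p.1 *ᵥ p.2 :=
        continuous_fst.matrix_mulVec continuous_snd
      exact hc.measurable.comp (measurable_snd.prodMk hv)
    have h2 : Measurable fun p : S.Ω × Mx n =>
        p.2ᵀ *ᵥ S.query b i p.1 (S.answers b p.1 p.2 i) := by
      have hc : Continuous fun p : Mx n × (Fin n → ℝ) => p.1ᵀ *ᵥ p.2 :=
        continuous_fst.matrix_transpose.matrix_mulVec continuous_snd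
      exact hc.measurable.comp (measurable_snd.prodMk hv)
    apply measurable_pi_lambda
    intro j
    by_cases hj : j = i
    · subst hj
      simp only [Algo.answers, Function.update_self]
      exact h1.prodMk h2
    · simp only [Algo.answers, Function.update_of_ne hj]
      exact (measurable_pi_apply j).comp ih

theorem nrm_sq (x : Fin n → ℝ) : nrm x ^ 2 = x ⬝ᵥ x := by
  unfold nrm
  rw [Real.sq_sqrt (Finset.sum_nonneg fun i _ => sq_nonneg _)]
  unfold dotProduct
  exact Finset.sum_congr rfl fun i _ => by rw [pow_two]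

theorem nrm_nonneg (x : Fin n → ℝ) : 0 ≤ nrm x := Real.sqrt_nonneg _

theorem nrm_le_iff {x b : Fin n → ℝ} {ε : ℝ} (hε : 0 ≤ ε) :
    nrm x ≤ ε * nrm b ↔ x ⬝ᵥ x ≤ ε ^ 2 * (b ⬝ᵥ b) := by
  rw [← nrm_sq, ← nrm_sq, ← mul_pow]
  exact (pow_le_pow_iff_left₀ (nrm_nonneg x) (mul_nonneg hε (nrm_nonneg b)) two_ne_zero).symm

theorem success_le (hn : 32 ≤ n) (S : Algo n) (hq : 8 * S.q ≤ n) {b : Fin n → ℝ} (hb : b ≠ 0) :
    S.success b (1 / (n : ℝ) ^ 4) ≤ ENNReal.ofReal (2 / 5) := by
  have hprob : IsProbabilityMeasure (gaussianEntries n) := by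
    unfold gaussianEntries
    infer_instance
  set T : Set (S.Ω × Mx n) := {p | (p.2 *ᵥ S.finalOutput b p.1 p.2 - b) ⬝ᵥ
    (p.2 *ᵥ S.finalOutput b p.1 p.2 - b) ≤ (1 / (n : ℝ) ^ 4) ^ 2 * (b ⬝ᵥ b)} with hT
  have hres : Measurable fun p : S.Ω × Mx n => S.finalOutput b p.1 p.2 :=
    (S.output_meas b).comp (measurable_fst.prodMk (measurable_answers S b S.q))
  have hdiff : Measurable fun p : S.Ω × Mx n => p.2 *ᵥ S.finalOutput b p.1 p.2 - b := by
    have hc : Continuous fun p : Mx n × (Fin n → ℝ) => p.1 *ᵥ p.2 - b :=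
      (continuous_fst.matrix_mulVec continuous_snd).sub continuous_const
    exact hc.measurable.comp (measurable_snd.prodMk hres)
  have hdot : Measurable fun p : S.Ω × Mx n => (p.2 *ᵥ S.finalOutput b p.1 p.2 - b) ⬝ᵥ
      (p.2 *ᵥ S.finalOutput b p.1 p.2 - b) := by
    have hc : Continuous fun x : Fin n → ℝ => x ⬝ᵥ x := continuous_id.dotProduct continuous_id
    exact hc.measurable.comp hdiff
  have hTm : MeasurableSet T := measurableSet_le hdot measurable_const
  have hset : {p : S.Ω × (Fin n × Fin n → ℝ) | nrm (Matrix.of (fun i j => p.2 (i, j))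
      *ᵥ S.finalOutput b p.1 (Matrix.of fun i j => p.2 (i, j)) - b) ≤ 1 / (n : ℝ) ^ 4 * nrm b}
      = (fun p : S.Ω × (Fin n × Fin n → ℝ) =>
        ((p.1, Matrix.of fun i j => p.2 (i, j)) : S.Ω × Mx n)) ⁻¹' T := by
    ext p
    rw [Set.mem_ofPred_eq, nrm_le_iff (by positivity)]
    rfl
  have hmap : Measurable (fun p : S.Ω × (Fin n × Fin n → ℝ) =>
        ((p.1, Matrix.of fun i j => p.2 (i, j)) : S.Ω × Mx n)) :=
    measurable_fst.prodMk (measurable_of.comp measurable_snd)
  unfold Algo.success
  rw [hset, Measure.prod_apply (hmap hTm)]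
  calc _ ≤ ∫⁻ _ω, ENNReal.ofReal (2 / 5) ∂S.μ := by
        refine lintegral_mono fun ω => ?_
        have h1 := det_bound hn hq (qy := fun i => S.query b i ω) (out := S.output b ω)
          (fun i => (S.query_meas b i).comp (measurable_const.prodMk measurable_id))
          ((S.output_meas b).comp (measurable_const.prodMk measurable_id)) hb
        have h2 : {A : Mx n | (A *ᵥ S.output b ω (tr (fun i => S.query b i ω) A S.q) - b) ⬝ᵥ
            (A *ᵥ S.output b ω (tr (fun i => S.query b i ω) A S.q) - b)
            ≤ (1 / (n : ℝ) ^ 4) ^ 2 * (b ⬝ᵥ b)} = Prod.mk ω ⁻¹' T := by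
          ext A
          rw [Set.mem_ofPred_eq, ← answers_eq]
          rfl
        rw [h2, gM_eq, Measure.map_apply measurable_of (measurable_prodMk_left hTm)] at h1
        exact h1
    _ = ENNReal.ofReal (2 / 5) := by
        rw [lintegral_const, measure_univ, mul_one]

/-- There are constants `C > 0` and `c > 0` such that, for every `n ≥ 32`, every randomised
adaptive algorithm which, for one single nonzero right-hand side `b`, outputs `x` with
`‖A x - b‖ ≤ n ^ (-C) ‖b‖` with probability more than `2 / 5` makes at least `c * n` queries. -/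
theorem result : ∃ C : ℝ, 0 < C ∧ ∃ c : ℝ, 0 < c ∧ ∀ n : ℕ, 32 ≤ n → ∀ S : Algo n,
    ∀ b : Fin n → ℝ, b ≠ 0 → ENNReal.ofReal (2 / 5) < S.success b ((n : ℝ) ^ (-C)) →
    c * n ≤ S.q := by
  refine ⟨4, by norm_num, 1 / 8, by norm_num, fun n hn S b hb h => ?_⟩
  have h1 : (n : ℝ) ^ (-(4 : ℝ)) = 1 / (n : ℝ) ^ 4 := by
    rw [Real.rpow_neg (Nat.cast_nonneg n), one_div]
    congr 1
    exact_mod_cast Real.rpow_natCast (n : ℝ) 4
  rw [h1] at h
  by_contra hcon
  rw [not_le] at hcon
  have h2 : 8 * S.q ≤ n := by
    have : (8 * S.q : ℝ) ≤ n := by linarith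
    exact_mod_cast this
  exact absurd h (not_lt.2 (success_le hn S h2 hb))

end Pool.Agent.Results.MP_f4f106_lc.LinearQueryLowerBound
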